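import Mathlib
import Pool.Agent.H.MP_b27533_gt.A

namespace Pool.Agent.H.MP_093203_gt

open MeasureTheory Metric Pool.Agent.H.MP_b27533_gt
open scoped RealInnerProductSpace

section plane
variable {H : Type} [NormedAddCommGroup H] [InnerProductSpace ℝ H] (b : OrthonormalBasis (Fin 2) ℝ H)

theorem s3 : √3 ^ 2 = (3 : ℝ) := Real.sq_sqrt (by norm_num)

theorem refl2 (y : H) : (ℝ ∙ (b 0 + √3 • b 1)).reflection y =
    ((-⟪b 0, y⟫ + √3 * ⟪b 1, y⟫) / 2) • b 0 + ((√3 * ⟪b 0, y⟫ + ⟪b 1, y⟫) / 2) • b 1 := by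
  rw [Submodule.reflection_singleton_apply]
  have h2 : ‖b 0 + √3 • b 1‖ ^ 2 = 4 := by
    rw [nsq b]; simp only [inner_add_right, inner_smul_right, i00, i01, i10, i11]
    nlinarith [s3]
  have h3 : ((‖b 0 + √3 • b 1‖ : ℝ) : ℝ) ^ 2 = 4 := h2
  conv_lhs => rw [dec b y]
  simp only [inner_add_right, inner_add_left, inner_smul_right, inner_smul_left, i00, i01, i10, i11,
    conj_trivial]
  erw [h3]
  match_scalars
  · ring
  · linear_combination (⟪b 1, y⟫ / 2) * s3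

theorem fix0 (c : H) (h1 : (ℝ ∙ b 0).reflection c = c)
    (h2 : (ℝ ∙ (b 0 + √3 • b 1)).reflection c = c) : c = 0 := by
  have a1 := congrArg (fun y => ⟪b 1, y⟫) h1
  have a2 := congrArg (fun y => ⟪b 0, y⟫) h2
  simp only [refl0, refl2, inner_add_right, inner_sub_right, inner_smul_right, i00, i01, i10,
    i11] at a1 a2
  have e1 : ⟪b 1, c⟫ = 0 := by linarith
  have e0 : ⟪b 0, c⟫ = 0 := by rw [e1] at a2; linarith
  rw [dec b c, e0, e1]; simp

theorem ball_of (c : H) (S : H ≃ₗ[ℝ] H) (E : Set H) (hE : E = (fun x => c + S x) '' closedBall 0 1)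
    (h2 : (ℝ ∙ b 0).reflection '' E = E)
    (h3 : (ℝ ∙ (b 0 + √3 • b 1)).reflection '' E = E) : ∃ (c : H) (r : ℝ), E = closedBall c r := by
  have mem : ∀ x, x ∈ E ↔ ‖S.symm (x - c)‖ ≤ 1 := by
    intro x
    rw [hE]
    constructor
    · rintro ⟨z, hz, rfl⟩; simpa using hz
    · intro h; exact ⟨S.symm (x - c), by simpa using h, by simp⟩
  have fix : ∀ g : H ≃ₗᵢ[ℝ] H, (∀ y, g (g y) = y) → g '' E = E → g c = c := by
    intro g hg hgE
    by_contra hne
    set d := g c - c with hd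
    have hd0 : d ≠ 0 := sub_ne_zero.2 hne
    have hp : 0 < ‖S.symm d‖ := norm_pos_iff.2 (by simpa using hd0)
    have sym : ∀ x ∈ E, c + c - x ∈ E := by
      intro x hx
      rw [mem] at hx ⊢
      rwa [show c + c - x - c = -(x - c) by abel, map_neg, norm_neg]
    have hgm : ∀ x ∈ E, g x ∈ E := fun x hx => by rw [← hgE]; exact ⟨x, hx, rfl⟩
    have a1 : c + ‖S.symm d‖⁻¹ • d ∈ E := by
      rw [mem]; simp [norm_smul, inv_mul_cancel₀ hp.ne']
    have a2 := hgm _ (sym _ (hgm _ (sym _ a1)))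
    rw [map_sub, map_add, hg, mem] at a2
    have a3 : g c + g c - (c + c - (c + ‖S.symm d‖⁻¹ • d)) - c = (2 + ‖S.symm d‖⁻¹) • d := by
      have : g c = c + d := by rw [hd]; abel
      rw [this]; module
    rw [a3, map_smul, norm_smul, Real.norm_of_nonneg (by positivity), add_mul,
      inv_mul_cancel₀ hp.ne'] at a2
    linarith
  have hc : c = 0 := fix0 b c (fix _ (fun y => by simp) h2) (fix _ (fun y => by simp) h3)
  subst hc
  simp only [sub_zero] at mem
  have hle : ∀ g : H ≃ₗᵢ[ℝ] H, g '' E = E → ∀ x, ‖S.symm (g x)‖ ≤ ‖S.symm x‖ := by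
    intro g hg x
    by_cases hx : x = 0
    · simp [hx]
    have hp : 0 < ‖S.symm x‖ := norm_pos_iff.2 (by simpa using hx)
    have a1 : ‖S.symm x‖⁻¹ • x ∈ E := by
      rw [mem]; simp [norm_smul, inv_mul_cancel₀ hp.ne']
    have a2 : g (‖S.symm x‖⁻¹ • x) ∈ E := by rw [← hg]; exact ⟨_, a1, rfl⟩
    rw [mem, map_smul, map_smul, norm_smul, norm_inv, norm_norm, inv_mul_le_iff₀ hp] at a2
    linarith
  have heq : ∀ g : H ≃ₗᵢ[ℝ] H, (∀ y, g (g y) = y) → g '' E = E →
      ∀ x, ‖S.symm (g x)‖ = ‖S.symm x‖ := by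
    intro g hg hgE x
    refine le_antisymm (hle g hgE x) ?_
    have := hle g hgE (g x)
    rwa [hg] at this
  set p := S.symm (b 0) with hp
  set q := S.symm (b 1) with hq
  have e1 := heq _ (fun y => by simp) h3 (b 0)
  have e3 := heq _ (fun y => by simp) h2 (b 0 + b 1)
  rw [refl2] at e1
  rw [refl0] at e3
  simp only [i00, i01, i10, i11, inner_add_right, one_smul, zero_add, add_zero, map_add, map_sub,
    map_smul, ← hp, ← hq] at e1 e3
  have f2 : ⟪p, q⟫ = 0 := by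
    have a1 := norm_add_sq_real p q
    have a2 := norm_sub_sq_real p q
    rw [e3] at a2
    linarith
  have f1 : ‖p‖ = ‖q‖ := by
    have a1 : _ ^ 2 = _ ^ 2 := congrArg (· ^ 2) e1
    rw [norm_add_sq_real, inner_smul_left, inner_smul_right, f2, norm_smul, norm_smul, mul_pow,
      mul_pow, Real.norm_eq_abs, Real.norm_eq_abs, sq_abs, sq_abs] at a1
    refine (pow_left_inj₀ (norm_nonneg _) (norm_nonneg _) two_ne_zero).1 ?_
    have := s3
    have a2 : (√3 * 1 / 2) ^ 2 = (3 / 4 : ℝ) := by linear_combination (1 / 4) * s3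
    rw [a2] at a1
    nlinarith
  have hp0 : 0 < ‖p‖ := norm_pos_iff.2 (by
    rw [hp]; simpa using b.orthonormal.ne_zero 0)
  have f3 : ∀ x, ‖S.symm x‖ = ‖p‖ * ‖x‖ := by
    intro x
    have : ‖S.symm x‖ ^ 2 = (‖p‖ * ‖x‖) ^ 2 := by
      rw [mul_pow, nsq b x]
      conv_lhs => rw [dec b x]
      rw [map_add, map_smul, map_smul, ← hp, ← hq, norm_add_sq_real, inner_smul_left,
        inner_smul_right, f2, norm_smul, norm_smul, mul_pow, mul_pow, Real.norm_eq_abs,
        Real.norm_eq_abs, sq_abs, sq_abs, ← f1]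
      ring
    exact (pow_left_inj₀ (norm_nonneg _) (by positivity) two_ne_zero).1 this
  refine ⟨0, ‖p‖⁻¹, Set.ext fun x => ?_⟩
  rw [mem, f3, mem_closedBall_zero_iff, ← le_div_iff₀' hp0, one_div]

theorem int_fix [FiniteDimensional ℝ H] [MeasurableSpace H] [BorelSpace H] (A : Set H)
    (g : H ≃ₗᵢ[ℝ] H) (hg : g '' A = A) : g (∫ x in A, x) = ∫ x in A, x := by
  have h1 := g.measurePreserving.setIntegral_image_emb
    g.toHomeomorph.measurableEmbedding (fun x => x) A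
  rw [hg] at h1
  rw [h1]
  conv_lhs => rw [← h1]
  exact (g.toLinearIsometry.integral_comp_comm (fun x => x)).symm

end plane

/-- the support function -/
noncomputable def hh (y : E) : ℝ := ‖y‖ + y 2 ^ 3 / (8 * ‖y‖ ^ 2)

/-- the body -/
def KK : Set E := {x | ∀ y, ⟪x, y⟫ ≤ hh y}

theorem co_le (y : E) : |y 2| ≤ ‖y‖ := by simpa using PiLp.norm_apply_le y 2

theorem hh_smul (c : ℝ) (hc : 0 < c) (y : E) : hh (c • y) = c * hh y := by
  unfold hh
  rw [norm_smul, Real.norm_of_nonneg hc.le]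
  by_cases hy : ‖y‖ = 0
  · simp [hy]
  · simp only [PiLp.smul_apply, smul_eq_mul]
    field_simp

theorem hh_bd (y : E) : |y 2 ^ 3 / (8 * ‖y‖ ^ 2)| ≤ ‖y‖ / 8 := by
  by_cases hy : ‖y‖ = 0
  · simp [hy]
  have hp : 0 < ‖y‖ := lt_of_le_of_ne (norm_nonneg _) (Ne.symm hy)
  rw [abs_div, abs_of_pos (by positivity : 0 < 8 * ‖y‖ ^ 2), div_le_iff₀ (by positivity), abs_pow]
  have := pow_le_pow_left₀ (abs_nonneg _) (co_le y) 3
  nlinarith

theorem grad (y : E) (hy : ‖y‖ = 1) : ∃ x ∈ KK, ⟪x, y⟫ = hh y := by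
  have key : ∀ z : E, ⟪y + (1 / 8 : ℝ) • ((3 * y 2 ^ 2) • EuclideanSpace.single 2 1 -
      (2 * y 2 ^ 3) • y), z⟫ = ⟪y, z⟫ + (3 * y 2 ^ 2 * z 2 - 2 * y 2 ^ 3 * ⟪y, z⟫) / 8 := by
    intro z
    simp only [inner_add_left, inner_sub_left, inner_smul_left, conj_trivial,
      EuclideanSpace.inner_single_left]
    ring
  refine ⟨y + (1 / 8 : ℝ) • ((3 * y 2 ^ 2) • EuclideanSpace.single 2 1 - (2 * y 2 ^ 3) • y),
    fun z => ?_, ?_⟩
  · have unit : ∀ z : E, ‖z‖ = 1 →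
        ⟪y, z⟫ + (3 * y 2 ^ 2 * z 2 - 2 * y 2 ^ 3 * ⟪y, z⟫) / 8 ≤ hh z := by
      intro z hz
      unfold hh
      rw [hz]
      have a1 := abs_le.1 ((co_le y).trans hy.le)
      have a2 := abs_le.1 ((co_le z).trans hz.le)
      have a3 : (z 2 - y 2) ^ 2 ≤ 2 * (1 - ⟪y, z⟫) := by
        have b1 := co_le (z - y)
        have b2 := norm_sub_sq_real z y
        rw [hz, hy, real_inner_comm] at b2
        have b3 := pow_le_pow_left₀ (abs_nonneg _) b1 2
        rw [sq_abs] at b3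
        simp only [PiLp.sub_apply] at b3
        linarith
      have a4 : 0 ≤ 1 - ⟪y, z⟫ := by nlinarith [sq_nonneg (z 2 - y 2)]
      have a5 : y 2 ^ 3 ≤ 1 := by nlinarith [sq_nonneg (y 2), mul_nonneg (sub_nonneg.2 a1.2) (sq_nonneg (y 2 + 1 / 2))]
      have a6 : -(z 2 - y 2) ^ 2 * (z 2 + 2 * y 2) ≤ 3 * (z 2 - y 2) ^ 2 := by
        nlinarith [sq_nonneg (z 2 - y 2)]
      nlinarith
    rw [key]
    by_cases hz : z = 0
    · simp [hz, hh]
    have hp : 0 < ‖z‖ := norm_pos_iff.2 hz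
    have := unit (‖z‖⁻¹ • z) (by rw [norm_smul, norm_inv, norm_norm, inv_mul_cancel₀ hp.ne'])
    rw [hh_smul _ (inv_pos.2 hp), inner_smul_right] at this
    simp only [PiLp.smul_apply, smul_eq_mul] at this
    have a := mul_le_mul_of_nonneg_left this hp.le
    rw [mul_inv_cancel_left₀ hp.ne'] at a
    refine le_trans (le_of_eq ?_) a
    field_simp
  · rw [key, real_inner_self_eq_norm_sq, hh, hy]; ring

theorem grad' (y : E) : ∃ x ∈ KK, ⟪x, y⟫ = hh y := by
  by_cases hy : y = 0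
  · obtain ⟨x, hx, -⟩ := grad (EuclideanSpace.single 0 1) (by simp)
    exact ⟨x, hx, by simp [hy, hh]⟩
  have hp : 0 < ‖y‖ := norm_pos_iff.2 hy
  obtain ⟨x, hx, hx'⟩ := grad (‖y‖⁻¹ • y)
    (by rw [norm_smul, norm_inv, norm_norm, inv_mul_cancel₀ hp.ne'])
  refine ⟨x, hx, ?_⟩
  rw [hh_smul _ (inv_pos.2 hp), inner_smul_right] at hx'
  exact mul_left_cancel₀ (inv_pos.2 hp).ne' hx'

theorem hh_add (x y : E) : hh (x + y) ≤ hh x + hh y := by
  obtain ⟨g, hg, hg'⟩ := grad' (x + y)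
  rw [← hg', inner_add_right]
  exact add_le_add (hg x) (hg y)

theorem ball_sub' : closedBall (0 : E) (1 / 2) ⊆ KK := by
  intro x hx y
  rw [mem_closedBall_zero_iff] at hx
  have := real_inner_le_norm x y
  have := abs_le.1 (hh_bd y)
  unfold hh
  nlinarith [norm_nonneg y]

theorem KK_compact : IsCompact KK := by
  refine (isCompact_closedBall (0 : E) 2).of_isClosed_subset ?_ ?_
  · have : KK = ⋂ y, {x : E | ⟪x, y⟫ ≤ hh y} := by ext x; simp [KK]
    rw [this]
    exact isClosed_iInter fun y => isClosed_le (by fun_prop) continuous_const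
  · intro x hx
    rw [mem_closedBall_zero_iff]
    have a1 := hx x
    rw [real_inner_self_eq_norm_sq] at a1
    have := abs_le.1 (hh_bd x)
    unfold hh at a1
    nlinarith [norm_nonneg x]

theorem KK_convex : Convex ℝ KK := by
  intro x hx x' hx' a c ha hc hac y
  rw [inner_add_left, inner_smul_left, inner_smul_left]
  simp only [conj_trivial]
  have : hh y = a * hh y + c * hh y := by rw [← add_mul, hac, one_mul]
  rw [this]
  exact add_le_add (mul_le_mul_of_nonneg_left (hx y) ha) (mul_le_mul_of_nonneg_left (hx' y) hc)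

theorem proj_eq' (H : Submodule ℝ E) :
    H.orthogonalProjectionOnto '' KK = {p : H | ∀ y : H, ⟪p, y⟫ ≤ hh y} := by
  ext p
  constructor
  · rintro ⟨x, hx, rfl⟩ y
    rw [Submodule.inner_orthogonalProjectionOnto_eq_of_mem_right]
    exact hx y
  · intro hp
    obtain ⟨g, hg1, hg2⟩ := exists_extension_of_le_sublinear
      (⟨H, (innerₛₗ ℝ (p : E)).comp H.subtype⟩ : E →ₗ.[ℝ] ℝ) hh hh_smul hh_add (fun x => hp x)
    refine ⟨(InnerProductSpace.toDual ℝ E).symm (LinearMap.toContinuousLinearMap g), fun y => ?_,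
      ext_inner_right ℝ fun y => ?_⟩
    · rw [InnerProductSpace.toDual_symm_apply]; exact hg2 y
    · rw [Submodule.inner_orthogonalProjectionOnto_eq_of_mem_right,
        InnerProductSpace.toDual_symm_apply]
      exact hg1 y

theorem not_ball : ¬ ∃ (c : E) (r : ℝ), KK = closedBall c r := by
  rintro ⟨c, r, hK⟩
  have key : ∀ y : E, y ≠ 0 → hh y = ⟪c, y⟫ + r * ‖y‖ := by
    intro y hy
    have hp : 0 < ‖y‖ := norm_pos_iff.2 hy
    obtain ⟨x, hx, hx'⟩ := grad' y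
    rw [hK, mem_closedBall, dist_eq_norm] at hx
    have hr : 0 ≤ r := (norm_nonneg _).trans hx
    apply le_antisymm
    · have a1 := real_inner_le_norm (x - c) y
      rw [inner_sub_left] at a1
      nlinarith
    · have a1 : c + (r * ‖y‖⁻¹) • y ∈ KK := by
        rw [hK, mem_closedBall, dist_eq_norm, add_sub_cancel_left, norm_smul,
          Real.norm_of_nonneg (by positivity), mul_assoc, inv_mul_cancel₀ hp.ne', mul_one]
      have a2 := a1 y
      rw [inner_add_left, inner_smul_left, real_inner_self_eq_norm_sq] at a2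
      simp only [conj_trivial] at a2
      have : r * ‖y‖⁻¹ * ‖y‖ ^ 2 = r * ‖y‖ := by field_simp
      linarith
  have odd : ∀ y : E, y ≠ 0 → y 2 ^ 3 / (8 * ‖y‖ ^ 2) = ⟪c, y⟫ := by
    intro y hy
    have a1 := key y hy
    have a2 := key (-y) (neg_ne_zero.2 hy)
    unfold hh at a1 a2
    rw [norm_neg, inner_neg_right, PiLp.neg_apply, Odd.neg_pow (by decide), neg_div] at a2
    linarith
  have n2 : ∀ y : E, ‖y‖ ^ 2 = y 0 ^ 2 + y 1 ^ 2 + y 2 ^ 2 := by
    intro y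
    rw [EuclideanSpace.real_norm_sq_eq, Fin.sum_univ_three]
  have p1 := odd (EuclideanSpace.single 0 1) (by simp)
  have p2 := odd (EuclideanSpace.single 2 1) (by simp)
  have p3 := odd (EuclideanSpace.single 0 1 + EuclideanSpace.single 2 1) (by
    intro h
    have := congrArg (fun y : E => y 0) h
    simp at this)
  rw [inner_add_right, ← p1, ← p2, n2, n2, n2] at p3
  simp at p3

theorem main (u : E) (hu : ‖u‖ = 1) :
    ∃ (v : (ℝ ∙ u)ᗮ) (A : Set (ℝ ∙ u)ᗮ) (b : OrthonormalBasis (Fin 2) ℝ (ℝ ∙ u)ᗮ),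
      (ℝ ∙ u)ᗮ.orthogonalProjectionOnto '' KK = (fun x => x + v) '' A ∧ IsCompact A ∧
      (interior A).Nonempty ∧ (ℝ ∙ b 0).reflection '' A = A ∧
      (ℝ ∙ (b 0 + √3 • b 1)).reflection '' A = A := by
  obtain ⟨b, c, hc⟩ := basis_ex u hu
  let v : (ℝ ∙ u)ᗮ := (3 * c ^ 3 / 32) • b 0
  let N : (ℝ ∙ u)ᗮ → ℝ := fun y => ‖y‖ +
    c ^ 3 * (⟪b 0, y⟫ ^ 3 - 3 * ⟪b 0, y⟫ * ⟪b 1, y⟫ ^ 2) / (32 * ‖y‖ ^ 2)
  have hN : ∀ y : (ℝ ∙ u)ᗮ, hh y = N y + ⟪v, y⟫ := by
    intro y
    simp only [N, v, hh]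
    rw [hc, ← Submodule.coe_norm, inner_smul_left]
    simp only [conj_trivial]
    by_cases hy : y = 0
    · simp [hy]
    have hp : 0 < ‖y‖ := norm_pos_iff.2 hy
    have := nsq b y
    field_simp
    linear_combination (-(24 * c ^ 3 * ⟪b 0, y⟫)) * this
  have hA : {a : (ℝ ∙ u)ᗮ | ∀ y, ⟪a, y⟫ ≤ N y} =
      (fun x => x - v) '' ((ℝ ∙ u)ᗮ.orthogonalProjectionOnto '' KK) := by
    rw [proj_eq']
    ext a
    constructor
    · intro ha
      refine ⟨a + v, fun y => ?_, by simp⟩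
      rw [hN, inner_add_left]
      linarith [ha y]
    · rintro ⟨p, hp, rfl⟩ y
      have := hp y
      rw [hN] at this
      simp only [inner_sub_left]
      linarith
  refine ⟨v, {a | ∀ y, ⟪a, y⟫ ≤ N y}, b, ?_, ?_, ?_, ?_, ?_⟩
  · rw [hA, ← Set.image_comp]; simp
  · rw [hA]
    exact (KK_compact.image (ContinuousLinearMap.continuous _)).image (by fun_prop)
  · refine ⟨-v, interior_maximal ?_ isOpen_ball (mem_ball_self (show (0 : ℝ) < 1 / 2 by norm_num))⟩
    rw [hA]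
    intro p hp
    refine ⟨p + v, ⟨(p + v : (ℝ ∙ u)ᗮ), ball_sub' ?_, by simp⟩, by simp⟩
    rw [mem_ball, dist_eq_norm, sub_neg_eq_add] at hp
    rw [mem_closedBall_zero_iff]
    exact hp.le
  · refine inv_of N _ (fun y => by simp) fun y => ?_
    simp only [N, LinearIsometryEquiv.norm_map]
    rw [refl0]
    simp only [inner_sub_right, inner_smul_right, i00, i01, i10, i11]
    ring
  · refine inv_of N _ (fun y => by simp) fun y => ?_
    simp only [N, LinearIsometryEquiv.norm_map]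
    rw [refl2]
    simp only [inner_add_right, inner_smul_right, i00, i01, i10, i11]
    congr 3
    linear_combination (3 * ⟪b 0, y⟫ ^ 3 / 8 - 9 * ⟪b 0, y⟫ * ⟪b 1, y⟫ ^ 2 / 8 +
      √3 * ⟪b 1, y⟫ ^ 3 / 8 - 3 * √3 * ⟪b 0, y⟫ ^ 2 * ⟪b 1, y⟫ / 8) * s3

end Pool.Agent.H.MP_093203_gt
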